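import Pool.Agent.D0H50.BK.Conc3
import Pool.Agent.D0H50.JL.EndJ

/-!
# The conjecture at `p = 3` in every odd dimension for the products of one elliptic curve with all
# varieties split by a cubic Kummer extension of `ℚ(ω)`, for 56 percent of all these extensions

`K` is the field of the third roots of unity, `E : y² + y = x³` is a fixed elliptic curve, and `D` runs
through all the cube-free elements of `𝓞 K` that do not divide `3`, without any congruence condition.
`F = K(∛D)` is a cyclic extension of degree three; all the cyclic extensions of degree three of `K` except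
`K(∛ω), K(∛3), K(∛3ω), K(∛3ω²)` are of this form.

Theorem.  For at least the proportion
`103 / 117 * ∏_{i ≥ 0} (1 - 3^{-(2 i + 1)}) = 0.5625...` of all the `D` (asymptotically, ordered by the norm)
the group `E(F)` is finite, `Ш(E / F)[3^∞]` is killed by `3`, and `H¹_f(L, V_3 E ⊗ M) = 0` for `L = K`, `L = F`
and all integral representations `M` of `Gal(F / L)`.  The proportion is at least
`2 / 3 * ∏_{i ≥ 0} (1 - 3^{-(2 i + 1)})` among the `D` divisible exactly once, and among the `D` divisible
exactly twice by `√-3`, and at least `79 / 81 * ∏_{i ≥ 0} (1 - 3^{-(2 i + 1)})` among the other ones.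

Consequence.  Let `L = K` or `F`, `i ≥ 0`, and let `Y` be any smooth projective variety over `L` of dimension
`2 i` whose motive with rational coefficients over `F` is a sum of Tate motives: for instance the
Severi-Brauer varieties split by `F`, the varieties of flags in them, their products, forms of smooth
toric varieties, and the cubic surfaces `x³ + y³ + z³ = D w³` over `K`.  Let `X = E × Y`, a variety of
dimension `2 i + 1`, and `M = CH^i(Y_F)` modulo torsion.  Then `H^(2 i + 1)(X, ℚ_3(i + 1)) = V_3 E ⊗ M` and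
`CH^(i + 1)(X)_0 ⊗ ℚ = (E(F) ⊗ M ⊗ ℚ)^Gal(F / L)`, so both sides of the conjecture are zero for `p = 3`, for
`X` and all idempotents `e`, and the 3-adic Abel-Jacobi map is an isomorphism.

The proof.  Over `F` the curve `E` is isogenous to the product with the twists `E_D` and `E_{D²}`, so that the
theorem for `F` follows if both groups `E_D(K)`, `E_{D²}(K)` are finite and both `Ш[3^∞]` are zero.  The
criteria for `E_D` and for `E_{D²}` are regularity conditions on symmetric matrices over the field with three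
elements.  If `√-3` does not divide `D` and `D² ≠ 1` modulo `√-3³` the two conditions are the same.  If `√-3`
divides `D`, then one of the matrices arises from the other by bordering it with one column and one row.
In this case, and in the class of `D² = 1`, the two conditions belong to a pencil: a matrix and its three
bordered matrices with the corners `0, 1, 2`, of which always exactly three or none are regular
(`D0H50/JL/Pencil.lean`).  As each of the four conditions has the proportion `∏ (1 - 3^{-(2 i + 1)})`, two of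
them hold together with the proportion `2 / 3` of it (`D0H50/JL`), and not with the square, as for
independent conditions.

Built on the projects L3, L9, L0 (helper43, helper10, helper69, helper2, helper15, helper42, helper45,
helper52, helper92), FF, KF, XK and CTE (see the headers of the imported files).
-/

set_option autoImplicit false
set_option linter.all false

namespace Pool.Agent.Results.MP_787500_nt.KummerExtensionsSplitForms

open NumberField Filter Pool.Agent.TH115.GD
open Pool.Agent.D0H50.BK (SelmerZero)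
open Pool.Agent.TH841.NF.D (Sha)
open scoped Classical

variable {K : Type} [Field K] [NumberField K]

/-- The curve `y² + y = x³`. -/
def curve (L : Type) [Field L] : WeierstrassCurve L := ⟨0, 0, 1, 0, 0⟩

/-- `D` is cube-free and does not divide `3`. -/
def CubeFree (D : 𝓞 K) : Prop := ¬ D ∣ 3 ∧ ∀ x : 𝓞 K, x ^ 3 ∣ D → IsUnit x

/-- `D` is divisible exactly `a` times by `√-3`. -/
def ExactlyDivisible (a : ℕ) (D : 𝓞 K) : Prop :=
  ∃ l : 𝓞 K, l ^ 2 = -3 ∧ l ^ a ∣ D ∧ ¬ l ^ (a + 1) ∣ D

/-- For an extension `F` of `K`: `F / K` is a Galois extension, `E(F)` is finite, `Ш(E / F)[3^∞]` is killed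
by `3`, and `H¹_f(L, V_3 E ⊗ M) = 0` for all intermediate fields `L` of `F / K` and all free `ℤ`-modules `M` of
finite rank with an action of `Gal(F / L)`. -/
structure BlochKatoThree (K F : Type) [Field K] [NumberField K] [Field F] [NumberField F]
    [Algebra K F] : Prop where
  galois : IsGalois K F
  points : Finite (curve F).toAffine.Point
  sha : ∀ (n : ℕ) (x : Sha (curve F)), 3 ^ n • x = 0 → 3 • x = 0
  selmer : ∀ (L : IntermediateField K F) [Normal L F] (g : ℕ) (ρ : (F ≃ₐ[L] F) →* GL (Fin g) ℤ),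
    SelmerZero (curve L) 3 ρ

/-- The field `F = K(∛D)` of degree three exists, and for each such `F` the property `BlochKatoThree`
holds. -/
def Good (D : 𝓞 K) : Prop :=
  (∃ (F : Type) (_ : Field F) (_ : NumberField F) (_ : Algebra K F),
    Module.finrank K F = 3 ∧ ∃ θ : F, θ ^ 3 = algebraMap K F (D : K)) ∧
  ∀ (F : Type) [Field F] [NumberField F] [Algebra K F], Module.finrank K F = 3 →
    (∃ θ : F, θ ^ 3 = algebraMap K F (D : K)) → BlochKatoThree K F

section proof

theorem good_of [IsCyclotomicExtension {3} ℚ K] {D : 𝓞 K} (hD : CubeFree D)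
    (h1 : Pool.Agent.Y696.CTK.Tri D) (h2 : Pool.Agent.Y696.CTK.Tri (D ^ 2)) : Good D := by
  refine ⟨Pool.Agent.D0H50.JL.ex_field hD, fun F _ _ _ hdeg hθ => ?_⟩
  obtain ⟨θ, hθ⟩ := hθ
  obtain ⟨h3, h4, h5⟩ := Pool.Agent.D0H50.JL.over_F hD h1 h2 F hdeg θ hθ
  refine ⟨h3, h4, h5, fun L _ g ρ => ?_⟩
  have hW : (curve L).baseChange F = curve F := by
    unfold curve WeierstrassCurve.baseChange WeierstrassCurve.map
    simp only [map_zero, map_one]
  have hb : (curve F).baseChange F = curve F := by
    unfold WeierstrassCurve.baseChange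
    ext <;> simp
  have : Finite (Pt (curve F) F) := by
    show Finite ((curve F).baseChange F).toAffine.Point
    rw [hb]
    exact h4
  exact Pool.Agent.D0H50.BK.all_zeroV (m := 1) hW Nat.prime_three this (fun k x hx => by
    rw [pow_one]
    exact h5 k x hx) ρ

/-- from the limit of the numbers of the elements with trivial twists to the proportion of the good
elements -/
theorem many [IsCyclotomicExtension {3} ℚ K] (P : 𝓞 K → Prop) {c : ℝ} (hP : 0 < c)
    (h : Tendsto (fun X : ℕ =>
      ({D : 𝓞 K | Algebra.norm ℤ D ≤ X ∧ CubeFree D ∧ (P D ∧ (Pool.Agent.Y696.CTK.Tri D ∧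
        Pool.Agent.Y696.CTK.Tri (D ^ 2)))}.ncard : ℝ) /
        ({D : 𝓞 K | Algebra.norm ℤ D ≤ X ∧ CubeFree D ∧ P D}.ncard : ℝ)) atTop (nhds c))
    (x : ℝ) (hx : x < c) : ∀ᶠ X : ℕ in atTop,
      x < ({D : 𝓞 K | Algebra.norm ℤ D ≤ X ∧ CubeFree D ∧ P D ∧ Good D}.ncard : ℝ) /
        ({D : 𝓞 K | Algebra.norm ℤ D ≤ X ∧ CubeFree D ∧ P D}.ncard : ℝ) := by
  filter_upwards [h.eventually_const_lt hx, h.eventually_const_lt hP] with X hX hX0
  refine hX.trans_le ?_
  have hpos : 0 < {D : 𝓞 K | Algebra.norm ℤ D ≤ X ∧ CubeFree D ∧ P D}.ncard := by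
    by_contra h0
    have h1 : {D : 𝓞 K | Algebra.norm ℤ D ≤ X ∧ CubeFree D ∧ P D}.ncard = 0 := by omega
    rw [h1, Nat.cast_zero, div_zero] at hX0
    exact lt_irrefl _ hX0
  have hfin : {D : 𝓞 K | Algebra.norm ℤ D ≤ X ∧ CubeFree D ∧ P D}.Finite :=
    Set.finite_of_ncard_pos hpos
  refine div_le_div_of_nonneg_right ?_ (Nat.cast_nonneg _)
  have h6 : {D : 𝓞 K | Algebra.norm ℤ D ≤ X ∧ CubeFree D ∧ (P D ∧ (Pool.Agent.Y696.CTK.Tri D ∧
        Pool.Agent.Y696.CTK.Tri (D ^ 2)))} ⊆
      {D : 𝓞 K | Algebra.norm ℤ D ≤ X ∧ CubeFree D ∧ P D ∧ Good D} :=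
    fun D hD => ⟨hD.1, hD.2.1, hD.2.2.1, good_of hD.2.1 hD.2.2.2.1 hD.2.2.2.2⟩
  have h7 := Set.ncard_le_ncard h6 (hfin.subset fun D hD => ⟨hD.1, hD.2.1, hD.2.2.1⟩)
  exact_mod_cast h7

end proof

/-- **Main theorem.**  `K` is the field of the third roots of unity.  There are at least `c X` elements
`D` of norm at most `X` in the family.  For every `x < 103 / 117 * ∏_{i ≥ 0} (1 - 3^{-(2 i + 1)}) = 0.5625...`
and all large `X` the proportion of those `D` of norm at most `X` with the property `Good` is larger than `x`;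
for `x < 2 / 3 * ∏_{i ≥ 0} (1 - 3^{-(2 i + 1)})` this holds among the `D` divisible exactly `a` times by `√-3`,
`a = 1, 2`. -/
theorem result (K : Type) [Field K] [NumberField K] [IsCyclotomicExtension {3} ℚ K] :
    (∃ c : ℝ, 0 < c ∧ ∃ X₀ : ℕ, ∀ X : ℕ, X₀ ≤ X →
      c * X ≤ ({D : 𝓞 K | Algebra.norm ℤ D ≤ X ∧ CubeFree D}.ncard : ℝ)) ∧
    (∀ x : ℝ, x < 103 / 117 * ∏' i : ℕ, (1 - (1 / 3 : ℝ) ^ (2 * i + 1)) → ∀ᶠ X : ℕ in atTop,
      x < ({D : 𝓞 K | Algebra.norm ℤ D ≤ X ∧ CubeFree D ∧ Good D}.ncard : ℝ) /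
        ({D : 𝓞 K | Algebra.norm ℤ D ≤ X ∧ CubeFree D}.ncard : ℝ)) ∧
    (∀ a : ℕ, a = 1 ∨ a = 2 → ∀ x : ℝ, x < 2 / 3 * ∏' i : ℕ, (1 - (1 / 3 : ℝ) ^ (2 * i + 1)) →
      ∀ᶠ X : ℕ in atTop, x < ({D : 𝓞 K | Algebra.norm ℤ D ≤ X ∧ CubeFree D ∧
          ExactlyDivisible a D ∧ Good D}.ncard : ℝ) /
        ({D : 𝓞 K | Algebra.norm ℤ D ≤ X ∧ CubeFree D ∧ ExactlyDivisible a D}.ncard : ℝ)) ∧
    (0.5625 : ℝ) < 103 / 117 * ∏' i : ℕ, (1 - (1 / 3 : ℝ) ^ (2 * i + 1)) := by
  obtain ⟨h1, h2, -, -⟩ := Pool.Agent.D0H50.JL.finalJ K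
  obtain ⟨h3, -, -, -, -, h4⟩ := Pool.Agent.D0H69.L0F.finalAll K
  have hpos : (0 : ℝ) < ∏' i : ℕ, (1 - (1 / 3 : ℝ) ^ (2 * i + 1)) := by linarith
  refine ⟨h3, ?_, ?_, by linarith⟩
  · intro x hx
    have h5 := many (K := K) (fun _ => True) (mul_pos (by norm_num) hpos) (by
      simp only [true_and, and_true]
      exact h1) x hx
    simp only [true_and, and_true] at h5
    exact h5
  · intro a ha x hx
    exact many (K := K) (ExactlyDivisible a) (mul_pos (by norm_num) hpos) (h2 a ha) x hx

end Pool.Agent.Results.MP_787500_nt.KummerExtensionsSplitForms
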