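import Pool.Agent.D0H50.BK.Trans
import Pool.Agent.Results.MP_78d38b_nt.PositiveProportionUnramified

/-!
# The conjecture at `p = 2` in every odd dimension for the products of a positive proportion of all
# elliptic curves over `ℚ` with all varieties split by a given Galois 2-extension

Let `K / ℚ` be ANY Galois extension of degree `2 ^ n` in which the prime `2` is unramified (the Galois
group and the ramification at the odd primes are arbitrary).

Theorem. Among ALL elliptic curves `E / ℚ`, ordered by height, a positive proportion has the following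
property: `E(K) = 0`, and for all intermediate fields `F` of `K / ℚ` and all integral representations `M`
of `Gal(K / F)` the Bloch-Kato Selmer group `H¹_f(F, V_2 E ⊗ M)` is zero.

Consequence. Let `F ⊂ K`, `i ≥ 0`, and let `Y` be any smooth projective variety over `F` of dimension `2 i`
whose motive with rational coefficients over `K` is a sum of Tate motives: a form which is split by `K` of
a product of projective spaces (for instance a Severi-Brauer variety), of a quadric, of a flag variety, of
a smooth toric variety, a geometrically rational surface (for instance a del Pezzo surface or a conic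
bundle) whose geometric Picard group is defined over `K`, the products of these, ... Let `X = E × Y`, a
variety of dimension `2 i + 1`, and `M = CH^i(Y_K)` modulo torsion. Then
`H^(2 i + 1)(X, ℚ_2(i + 1)) = V_2 E ⊗ M` and `CH^(i + 1)(X)_0 ⊗ ℚ = (E(K) ⊗ M ⊗ ℚ)^Gal(K / F)`. So for the
curves `E` of the theorem both sides of the conjecture are zero for `p = 2`, for all these `F`, `i`, `Y`
and all idempotents `e`, and the 2-adic Abel-Jacobi map is an isomorphism. The case of the twists of the
powers of `E` (abelian varieties `A` with `A_K = E ^ g`, and the curves `X` with such Jacobians) is included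
with `i = 0`.

The proof. By the theorem of `MP_78d38b_nt.PositiveProportionUnramified` a positive proportion of all
elliptic curves over `ℚ` has `E(K) = 0` and `Ш(E / K)[2^∞] = 0`. So `H¹_f(K, V_2 E) = 0`
(`D0H50/BK/Conc.lean`). The restriction of a class of `H¹_f(F, V_2 E ⊗ M)` to `K` consists of classes
of `H¹_f(K, V_2 E)` and is zero, and as there are no invariants of the group of `K` in `V_2 E` the class
is zero (`D0H50/BK/Abs.lean`).
-/

set_option autoImplicit false
set_option linter.all false

namespace Pool.Agent.Results.MP_787500_nt.PositiveProportionSplitForms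

open Filter NumberField Pool.Agent.TH115.GD
open Pool.Agent.D0H50.BK (SelmerZero)
open scoped Classical

/-- The equation `y ^ 2 = x ^ 3 + A x + B` with integers `A`, `B` defines an elliptic curve, and
there is no prime `p` with `p ^ 4 ∣ A` and `p ^ 6 ∣ B`. Every elliptic curve over `ℚ` is isomorphic to
exactly one of these. -/
structure IsMinimal (A B : ℤ) : Prop where
  elliptic : 4 * A ^ 3 + 27 * B ^ 2 ≠ 0
  minimal : ∀ p : ℕ, p.Prime → ¬ ((p : ℤ) ^ 4 ∣ A ∧ (p : ℤ) ^ 6 ∣ B)

/-- The height. -/
def height (p : ℤ × ℤ) : ℤ := max (4 * |p.1| ^ 3) (27 * p.2 ^ 2)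

/-- The set of all elliptic curves over `ℚ` of height at most `X`. -/
def Curves (X : ℕ) : Set (ℤ × ℤ) := {p | IsMinimal p.1 p.2 ∧ height p ≤ X}

/-- The curve `E : y ^ 2 = x ^ 3 + A x + B` over the field `F`. -/
def curve (F : Type) [Field F] (p : ℤ × ℤ) : WeierstrassCurve F := ⟨0, 0, 0, (p.1 : F), (p.2 : F)⟩

/-- `E(K) = 0`, and `H¹_f(F, V_2 E ⊗ M) = 0` for all intermediate fields `F` of `K / ℚ` and all free
`ℤ`-modules `M` of finite rank with an action of `Gal(K / F)`. -/
structure BlochKatoTwo (K : Type) [Field K] [NumberField K] [IsGalois ℚ K] (p : ℤ × ℤ) : Prop where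
  points : Subsingleton (Pt (curve K p) K)
  selmer : ∀ (F : IntermediateField ℚ K) (g : ℕ) (ρ : (K ≃ₐ[F] K) →* GL (Fin g) ℤ),
    SelmerZero (curve F p) 2 ρ

/-- For every Galois extension `K / ℚ` of degree `2 ^ n` in which `2` is unramified (that is,
no prime ideal `𝔭` of `K` has `2 ∈ 𝔭 ^ 2`) there is `c > 0` such that for all large `X` at least `c` times
the number of all elliptic curves `E` over `ℚ` of height at most `X` have `E(K) = 0` and
`H¹_f(F, V_2 E ⊗ M) = 0` for all intermediate fields `F` and all integral representations `M` of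
`Gal(K / F)`. -/
theorem result (K : Type) [Field K] [NumberField K] [IsGalois ℚ K] (n : ℕ)
    (hn : Module.finrank ℚ K = 2 ^ n)
    (h2 : ∀ 𝔭 : Ideal (𝓞 K), 𝔭.IsPrime → (2 : 𝓞 K) ∉ 𝔭 ^ 2) :
    (∀ X : ℕ, (Curves X).Finite) ∧
    ∃ c : ℝ, 0 < c ∧ ∀ᶠ X : ℕ in atTop,
      0 < (Curves X).ncard ∧
      c * ((Curves X).ncard : ℝ) ≤ (({p ∈ Curves X | BlochKatoTwo K p}).ncard : ℝ) := by
  obtain ⟨hfin, c, hc, h⟩ :=
    Pool.Agent.Results.MP_78d38b_nt.PositiveProportionUnramified.result K n hn h2
  have hset : ∀ X : ℕ, Curves X =
      Pool.Agent.Results.MP_78d38b_nt.PositiveProportionUnramified.Curves X := by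
    intro X
    ext p
    exact ⟨fun hp => ⟨⟨hp.1.1, hp.1.2⟩, hp.2⟩, fun hp => ⟨⟨hp.1.1, hp.1.2⟩, hp.2⟩⟩
  refine ⟨fun X => by rw [hset]; exact hfin X, c, hc, ?_⟩
  filter_upwards [h] with X hX
  rw [hset]
  refine ⟨hX.1, hX.2.trans ?_⟩
  have h4 := Set.ncard_le_ncard
    (s := {p ∈ Pool.Agent.Results.MP_78d38b_nt.PositiveProportionUnramified.Curves X |
      Pool.Agent.Results.MP_78d38b_nt.PositiveProportionUnramified.Good K p})
    (t := {p ∈ Pool.Agent.Results.MP_78d38b_nt.PositiveProportionUnramified.Curves X |
      BlochKatoTwo K p}) ?_ ((hfin X).subset fun p hp => hp.1)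
  · exact_mod_cast h4
  · rintro p ⟨hp, hs, hsha, hd⟩
    refine ⟨hp, hd, fun F g ρ => ?_⟩
    have hW : (curve F p).baseChange K =
        Pool.Agent.Results.MP_78d38b_nt.PositiveProportionUnramified.curve K p := by
      unfold curve Pool.Agent.Results.MP_78d38b_nt.PositiveProportionUnramified.curve
        WeierstrassCurve.baseChange WeierstrassCurve.map
      simp
    exact Pool.Agent.D0H50.BK.all_zero hW hsha hd ρ

end Pool.Agent.Results.MP_787500_nt.PositiveProportionSplitForms
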