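import Pool.Agent.D0H50.BK.Conc3
import Pool.Agent.D0H43.KB.Bk
import Pool.Agent.D0H69.JT.Multi
import Pool.Agent.D0H69.JT.Exc

/-!
# The conjecture at `p = 3` over every abelian extension of exponent three of `ℚ(ω)`: split forms times cubic
# twists, and diagonal cubic curves, threefolds and fivefolds

`K` is the field of the third roots of unity, `E_D : y² + D y = x³`, and `D` runs through ALL the cube-free
elements of `𝓞 K` that have a prime divisor different from `√-3`, ordered by the norm: every cubic twist of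
`y² + y = x³`, except for finitely many, is isomorphic to `E_D` for one of the pairs `{D, -D}`.
Let `c = ∏_{i ≥ 0} (1 - 3^{-(2 i + 1)}) = 0.6390...`.

Theorem.  Let `F` be ANY number field that is generated over `K` by cube roots of elements of `K`, in other
words any finite abelian extension of `K` with a group of exponent `3`, and let `u_1, …, u_n` be any
elements of `K*`.  For at least the proportion `c ^ (n [F : K])` of the `D`, and also of the `D` divisible
exactly `a` times by `√-3`, for each `a = 0, 1, 2` (asymptotically, ordered by the norm), the following holds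
for all the curves `E = E_{u_i D}`, simultaneously.

(A) `E(F)` is finite, `Ш(E / F)[3^∞]` is killed by `[F : K]`, and `H¹_f(L, V_3 E ⊗ M) = 0` for all fields
`K ⊂ L ⊂ F` and all integral representations `M` of `Gal(F / L)`.

(B) For `c ≤ 2` let `X_a` be the cubic hypersurface `a_0 x_0³ + … + a_{2c+2} x_{2c+2}³ = 0` over `F`, and
`δ_T = ∏ a_i ∏_{i ∈ T} a_i`, `#T = c`.  Let every `δ_T` be a cube of `F*` times some `u_i D`, or else such
that `E_{δ_T}(F)` is finite and `Ш(E_{δ_T} / F)[3^∞]` of finite exponent.  Then at all the places `v` not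
dividing `3 ∏ a_i` the numbers of points of `X_a` are those of `H^n(X_a) = ⊕_T H^1(E_{δ_T})(-c)`,
`n = 2 c + 1`, and `E(F) ⊗ ℚ_3 = 0 = H¹_f(F, V_3 E)` for all the `E = E_{δ_T}`.

For `F = K` and `u_i` pairwise different modulo cubes the law is exact: the proportion of the `D` such that
`E_{u_i D}(K)` is finite and `Ш(E_{u_i D} / K)[3^∞] = 0` for all `i` tends to `c ^ n`, in all the classes, and
for `n = 1` also in the class `D² = 1` modulo `(√-3)³`; and these `D` have the properties (A) and (B).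

Consequences.  (A) Let `K ⊂ L ⊂ F`, `i ≥ 0`, and let `Y` be any FIXED smooth projective variety over `L` of
dimension `2 i` whose motive with rational coefficients over `F` is a sum of Tate motives: for instance
products of Severi-Brauer varieties, forms of flag varieties and of smooth toric varieties, or
geometrically rational surfaces split by `F` (such as all the cubic surfaces
`a x³ + b y³ + c z³ + d w³ = 0` with coefficients in `K`, for a suitable `F`).  Let `X = E_D × Y`, a variety
of dimension `2 i + 1`, and `M = CH^i(Y_F)` modulo torsion.  Then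
`H^(2 i + 1)(X, ℚ_3(i + 1)) = V_3 E_D ⊗ M` and `CH^(i + 1)(X)_0 ⊗ ℚ = (E_D(F) ⊗ M ⊗ ℚ)^Gal(F / L)`, so both
sides of the conjecture are zero for `p = 3`, for `X` and all idempotents `e`, for at least the proportion
`c ^ [F : K] > 0` of all the `D`.  (B) By Faltings `V = H^n(X_a, ℚ_3(c + 1))` is the sum of the
`V_3 E_{δ_T}`, and `CH^{c+1}(X_a)_0 ⊗ ℚ_3 = J(F) ⊗ ℚ_3` with `J` isogenous to the product of the `E_{δ_T}`
(Bloch-Murre for the threefolds, Collino and Paranjape for the fivefolds), so both sides are zero.  This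
applies for instance to all plane cubics `a x³ + b y³ + c z³ = 0` over `F` with `a b c` in `D F*³`, and for
fixed `a_0, …, a_4` in `K*`, `A = ∏ a_i`, such that `E_{A a_3}(F)` and `E_{A a_4}(F)` are small, to the
threefolds `D (a_0 x_0³ + a_1 x_1³ + a_2 x_2³) + a_3 x_3³ + a_4 x_4³ = 0`, with `u_i = A a_i`, `i ≤ 2`, for
at least the proportion `c ^ (3 [F : K])` of all the `D`.  (The geometry is not formalized.)

The proof.  The joint law (project JT: helper69, helper22, helper23, helper52, helper87, helper98): the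
`3^∞`-Selmer groups over `K` of all the curves `E_{u_i v D}`, `v` in `K* ∩ F*³` modulo `K*³`, are zero
simultaneously.  Over `F` the curves with the same `i` are isomorphic, and the sums over the twists of the
conjugates of a point or of a cocycle (library of helper432) give `E(F)` and `Ш(E / F)[3^∞]`.  So the
components of a cocycle of `H¹_f(F, V_3 E)` are coboundaries, and by compactness the class is zero; the
restriction of a class of `H¹_f(L, V_3 E ⊗ M)` to `F` consists of such classes (helper50,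
`Pool/Agent/D0H50/BK`).  Part (B): helper43 and the library (`Pool/Agent/D0H43/KB`, `Pool/Agent/N883`).

This file contains the theorem of the earlier hand-in `AllCubicTwists` (helper43): `F = K`, `n = 1`.
-/

set_option autoImplicit false
set_option linter.all false

namespace Pool.Agent.Results.MP_787500_nt.SplitFormsAllCubicTwists

open NumberField IsDedekindDomain WeierstrassCurve Filter Pool.Agent.TH115.GD
open Pool.Agent.D0H50.BK (SelmerZero)
open Pool.Agent.TH841.NF.D (Sha)
open Pool.Agent.Y667.BKP (H1f)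
open scoped Classical

/-- The curve `E_D : y² + D y = x³`. -/
def curve {F : Type} [Field F] (D : F) : WeierstrassCurve F := ⟨0, 0, D, 0, 0⟩

/-- The solutions, not all zero, of `∑ a i x i ^ 3 = 0` in the field `F`. -/
def solutions {m : ℕ} {F : Type} [Field F] (a : Fin m → F) : Set (Fin m → F) :=
  {x | x ≠ 0 ∧ ∑ i, a i * x i ^ 3 = 0}

/-- `δ_T = ∏ a i ∏_{i ∈ T} a i`. -/
def twist {m : ℕ} {R : Type} [CommRing R] (a : Fin m → R) (T : Finset (Fin m)) : R :=
  (∏ i, a i) * ∏ i ∈ T, a i

/-- `X_a` has the dimension `n = 2 c + 1`.  Let `β T` and its complex conjugate be the eigenvalues of the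
Frobenius of the curve `y² + δ_T y = x³` over the residue field of `v`, which has `N` elements.  Then
for all the fields `F` with `N ^ r` elements that contain the residue field (`f` is the reduction)
the number of the nonzero solutions in `F` of the equation of `X_a` is
`(#F - 1) (1 + #F + ... + #F^n - ∑ ((N^c β T)^r + (N^c conj (β T))^r))`, the sum over all the sets
`T` of `c` indices. -/
def Decomposition {L : Type} [Field L] [NumberField L] (c : ℕ) (a : Fin (2 * c + 3) → 𝓞 L)
    (v : HeightOneSpectrum (𝓞 L)) : Prop :=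
  ∃ β : Finset (Fin (2 * c + 3)) → ℂ,
    (∀ T, β T * (starRingEnd ℂ) (β T) = Ideal.absNorm v.asIdeal ∧
      (Nat.card {P : (𝓞 L ⧸ v.asIdeal) × (𝓞 L ⧸ v.asIdeal) //
        P.2 ^ 2 + Ideal.Quotient.mk v.asIdeal (twist a T) * P.2 = P.1 ^ 3} : ℂ) =
          Ideal.absNorm v.asIdeal - (β T + (starRingEnd ℂ) (β T))) ∧
    ∀ (F : Type) [Field F] [Finite F] (f : 𝓞 L →+* F) (r : ℕ), RingHom.ker f = v.asIdeal →
      Nat.card F = Ideal.absNorm v.asIdeal ^ r →
      ((solutions fun i => f (a i)).ncard : ℂ) = (Nat.card F - 1) *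
        (∑ i ∈ Finset.range (2 * c + 2), (Nat.card F : ℂ) ^ i -
          ∑ T ∈ (Finset.univ : Finset (Fin (2 * c + 3))).powersetCard c,
            (((Ideal.absNorm v.asIdeal : ℂ) ^ c * β T) ^ r +
              ((Ideal.absNorm v.asIdeal : ℂ) ^ c * (starRingEnd ℂ) (β T)) ^ r))

/-- `W` is an elliptic curve, and `W(F) ⊗ ℚ_3` and `H¹_f(F, V_3 W)` are zero. -/
def BothZero {F : Type} [Field F] [NumberField F] (W : WeierstrassCurve F) : Prop :=
  W.IsElliptic ∧ (∀ x : TensorProduct ℤ W.toAffine.Point ℚ_[3], x = 0) ∧ ∀ x : H1f 3 W, x = 0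

/-- The cohomology of `X_a` over `L` decomposes at all the places not dividing `3 ∏ a i`, and both sides
of the conjecture are zero for all the curves `E_{δ_T}`, `#T = c`. -/
def Settled (L : Type) [Field L] [NumberField L] (c : ℕ) (a : Fin (2 * c + 3) → 𝓞 L) : Prop :=
  (∀ v : HeightOneSpectrum (𝓞 L), (3 : 𝓞 L) ∉ v.asIdeal → (∀ i, a i ∉ v.asIdeal) →
    Decomposition c a v) ∧
  ∀ T : Finset (Fin (2 * c + 3)), T.card = c → BothZero (curve ((twist a T : 𝓞 L) : L))

/-- `δ` is not zero, `E_δ(F)` is finite, and `Ш(E_δ / F)[3^∞]` has a finite exponent. -/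
def Small {F : Type} [Field F] [NumberField F] (δ : F) : Prop :=
  δ ≠ 0 ∧ Finite (curve δ).toAffine.Point ∧
    ∃ m : ℕ, ∀ (k : ℕ) (y : Sha (curve δ)), 3 ^ k • y = 0 → 3 ^ m • y = 0

variable {K : Type} [Field K] [NumberField K]

/-- `D` is cube-free and does not divide `3`. -/
def CubeFree (D : 𝓞 K) : Prop := ¬ D ∣ 3 ∧ ∀ x : 𝓞 K, x ^ 3 ∣ D → IsUnit x

/-- `D` is divisible exactly `a` times by `√-3`. -/
def ExactlyDivisible (a : ℕ) (D : 𝓞 K) : Prop :=
  ∃ l : 𝓞 K, l ^ 2 = -3 ∧ l ^ a ∣ D ∧ ¬ l ^ (a + 1) ∣ D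

/-- `D²` is `1` modulo `(√-3)³`. -/
def SquareNearOne (D : 𝓞 K) : Prop := ∃ l : 𝓞 K, l ^ 2 = -3 ∧ l ^ 3 ∣ D ^ 2 - 1

/-- `E_x(K)` is finite and the `3`-primary part of `Ш(E_x / K)` is trivial. -/
def FiniteAndTrivial (x : K) : Prop :=
  Finite (curve x).toAffine.Point ∧ ∀ (n : ℕ) (y : Sha (curve x)), 3 ^ n • y = 0 → y = 0

/-- For an extension `F` of `K` and the curve `E_x : y² + x y = x³`, `x` in `K`: `F / K` is a Galois
extension, `E_x(F)` is finite, `Ш(E_x / F)[3^∞]` is killed by `[F : K]`, and `H¹_f(L, V_3 E_x ⊗ M) = 0` for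
all intermediate fields `L` of `F / K` and all free `ℤ`-modules `M` of finite rank with an action of
`Gal(F / L)`. -/
structure BlochKatoThree (F : Type) [Field F] [NumberField F] [Algebra K F] (x : K) : Prop where
  galois : IsGalois K F
  points : Finite (curve (algebraMap K F x)).toAffine.Point
  sha : ∀ (n : ℕ) (y : Sha (curve (algebraMap K F x))), 3 ^ n • y = 0 → Module.finrank K F • y = 0
  selmer : ∀ (L : IntermediateField K F) [Normal L F] (g : ℕ) (ρ : (F ≃ₐ[L] F) →* GL (Fin g) ℤ),
    SelmerZero (curve (algebraMap K L x)) 3 ρ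

/-- The properties (A) and (B) over `F` of the curves `E_{x i}`: `BlochKatoThree` for all of them, and
`Settled` for all the diagonal cubic hypersurfaces of dimension `2 c + 1 ≤ 5` over `F` such that each
`δ_T` is small or some `x i` times a cube. -/
def Conjecture (F : Type) [Field F] [NumberField F] [Algebra K F] {n : ℕ} (x : Fin n → K) : Prop :=
  (∀ i, BlochKatoThree F (x i)) ∧
  ∀ c : ℕ, c ≤ 2 → ∀ a : Fin (2 * c + 3) → 𝓞 F,
    (∀ T : Finset (Fin (2 * c + 3)), T.card = c → Small ((twist a T : 𝓞 F) : F) ∨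
      ∃ (i : Fin n) (z : F), z ≠ 0 ∧ ((twist a T : 𝓞 F) : F) = algebraMap K F (x i) * z ^ 3) →
    Settled F c a

/-- The proportion of the `D` with the property `Q` among the cube-free `D` with the property `P` and
norm at most `X`. -/
noncomputable def proportion (P Q : 𝓞 K → Prop) (X : ℕ) : ℝ :=
  ({D : 𝓞 K | Algebra.norm ℤ D ≤ X ∧ CubeFree D ∧ P D ∧ Q D}.ncard : ℝ) /
    ({D : 𝓞 K | Algebra.norm ℤ D ≤ X ∧ CubeFree D ∧ P D}.ncard : ℝ)

/-- `∏_{i ≥ 0} (1 - 3^{-(2 i + 1)})`. -/
noncomputable def c : ℝ := ∏' i : ℕ, (1 - (1 / 3 : ℝ) ^ (2 * i + 1))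

section proof

variable {F : Type} [Field F] [NumberField F] [Algebra K F]

theorem bk_of (hgal : IsGalois K F) {x : K} {m : ℕ} (hm : Module.finrank K F = 3 ^ m)
    (h1 : Finite (curve (algebraMap K F x)).toAffine.Point)
    (h2 : ∀ (k : ℕ) (y : Sha (curve (algebraMap K F x))), 3 ^ k • y = 0 →
      Module.finrank K F • y = 0) : BlochKatoThree F x := by
  refine ⟨hgal, h1, h2, fun L _ g ρ => ?_⟩
  have hW : (curve (algebraMap K L x)).baseChange F = curve (algebraMap K F x) := by
    unfold curve WeierstrassCurve.baseChange WeierstrassCurve.map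
    simp only [map_zero]
    rfl
  have hb : (curve (algebraMap K F x)).baseChange F = curve (algebraMap K F x) := by
    unfold WeierstrassCurve.baseChange
    ext <;> simp
  haveI : Finite (Pt (curve (algebraMap K F x)) F) := by
    show Finite ((curve (algebraMap K F x)).baseChange F).toAffine.Point
    rw [hb]
    exact h1
  exact Pool.Agent.D0H50.BK.all_zeroV (m := m) hW Nat.prime_three inferInstance
    (fun k y hy => by
      rw [← hm]
      exact h2 k y hy) ρ

theorem conj_of (hgal : IsGalois K F) {m : ℕ} (hm : Module.finrank K F = 3 ^ m) {n : ℕ}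
    {x : Fin n → K} (hx : ∀ i, x i ≠ 0)
    (h : ∀ i, Finite (curve (algebraMap K F (x i))).toAffine.Point ∧
      ∀ (k : ℕ) (y : Sha (curve (algebraMap K F (x i)))), 3 ^ k • y = 0 →
      Module.finrank K F • y = 0) : Conjecture F x := by
  refine ⟨fun i => bk_of hgal hm (h i).1 (h i).2, fun c hc a ha => ⟨fun v h3 hv =>
    Pool.Agent.N883.FG.decAt hc a v h3 hv, fun T hT => ?_⟩⟩
  rcases ha T hT with ⟨h0, hf, m', hs⟩ | ⟨i, z, hz, he⟩
  · exact Pool.Agent.N883.FG.bz_vr (m := m') one_ne_zero h0 (by rw [one_pow, mul_one]) hf hs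
  · exact Pool.Agent.N883.FG.bz_vr (m := m) hz ((map_ne_zero _).2 (hx i)) he (h i).1
      (fun k y hy => by
        rw [← hm]
        exact (h i).2 k y hy)

theorem ne_of {D : 𝓞 K} (hD : CubeFree D) : (D : K) ≠ 0 :=
  Pool.Agent.D0H69.JTL.famH_ne' hD

theorem small_cube [IsCyclotomicExtension {3} ℚ K] {z : K} (hz : z ≠ 0) : Small (z ^ 3) := by
  obtain ⟨⟨j, hj⟩, -⟩ := Pool.Agent.Y455.CTK.jex K
  obtain ⟨k1, k2⟩ := Pool.Agent.D0H69.JTL.vr_ED (d := (1 : K)) (d' := z ^ 3) hz one_ne_zero
    (by rw [one_mul])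
  refine ⟨pow_ne_zero 3 hz, k1 Pool.Agent.Y696.CTE.fin_one, 0, fun k y hy => ?_⟩
  rw [pow_zero, one_smul]
  exact k2 (Pool.Agent.Y696.CTE.partsE.sh1 K j) k y hy

end proof

/-- **Main theorem.** -/
theorem result (K : Type) [Field K] [NumberField K] [IsCyclotomicExtension {3} ℚ K] :
    (∃ b : ℝ, 0 < b ∧ ∃ X₀ : ℕ, ∀ X : ℕ, X₀ ≤ X →
      b * X ≤ ({D : 𝓞 K | Algebra.norm ℤ D ≤ X ∧ CubeFree D}.ncard : ℝ)) ∧
    (∀ (F : Type) [Field F] [NumberField F] [Algebra K F] (S : Set F),
      (∀ x ∈ S, ∃ u : K, x ^ 3 = algebraMap K F u) → IntermediateField.adjoin K S = ⊤ →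
      ∀ (n : ℕ) (u : Fin n → K), (∀ i, u i ≠ 0) →
      ∀ P : 𝓞 K → Prop, (P = fun _ => True) ∨ (∃ a < 3, P = ExactlyDivisible a) →
      ∀ x : ℝ, x < c ^ (n * Module.finrank K F) → ∀ᶠ X : ℕ in atTop,
        x < proportion P (fun D : 𝓞 K => Conjecture F fun i => u i * (D : K)) X) ∧
    (∀ (n : ℕ) (u : Fin n → K), (∀ i, u i ≠ 0) →
      (∀ i i', i ≠ i' → ∀ z : K, u i ≠ u i' * z ^ 3) →
      ∀ P : 𝓞 K → Prop, (P = fun _ => True) ∨ (∃ a < 3, P = ExactlyDivisible a) →
      Tendsto (proportion P fun D : 𝓞 K => ∀ i, FiniteAndTrivial (u i * (D : K))) atTop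
        (nhds (c ^ n))) ∧
    Tendsto (proportion SquareNearOne fun D : 𝓞 K => FiniteAndTrivial (D : K)) atTop (nhds c) ∧
    (∀ (n : ℕ) (x : Fin n → K), (∀ i, x i ≠ 0) → (∀ i, FiniteAndTrivial (x i)) →
      Conjecture K x) ∧
    (∀ z : K, z ≠ 0 → Small (z ^ 3)) ∧
    (0.639 : ℝ) < c := by
  obtain ⟨h1, -, -, -, h5, h6⟩ := Pool.Agent.D0H69.L0F.finalAll K
  refine ⟨h1, ?_, ?_, h5, ?_, fun z hz => small_cube hz, h6⟩
  · intro F _ _ _ S hS hgen n u hu P hP x hx
    obtain ⟨⟨j, hj⟩, -⟩ := Pool.Agent.Y455.CTK.jex K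
    obtain ⟨r, d, y, B⟩ := Pool.Agent.D0H69.JTL.bas_of (K := K) hS hgen
    obtain ⟨hfd, hgal⟩ := Pool.Agent.R432.C.gal3 (F := F) (Pool.Agent.R432.C.om_K j) d y B.cube
      B.gen
    have h2 := Pool.Agent.D0H69.JTL.low_multi (K := K) (ι := Fin n) (F := fun _ => F)
      (S := fun _ => S) (fun _ => hS) (fun _ => hgen) hu (P := P) hP (x := x) (by
        rw [Finset.sum_const, Finset.card_univ, Fintype.card_fin, smul_eq_mul]
        exact hx)
    filter_upwards [h2] with X hX
    refine lt_of_lt_of_le hX ?_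
    unfold proportion
    apply div_le_div_of_nonneg_right _ (Nat.cast_nonneg _)
    have h9 := Set.ncard_le_ncard
      (s := {D : 𝓞 K | Algebra.norm ℤ D ≤ X ∧ CubeFree D ∧ P D ∧
          ∀ i, Finite (Pool.Agent.Y696.CTK.ED (algebraMap K F (u i * D))).toAffine.Point ∧
            ∀ (k : ℕ) (y : Sha (Pool.Agent.Y696.CTK.ED (algebraMap K F (u i * D)))),
              3 ^ k • y = 0 → Module.finrank K F • y = 0})
      (t := {D : 𝓞 K | Algebra.norm ℤ D ≤ X ∧ CubeFree D ∧ P D ∧
        Conjecture F fun i => u i * (D : K)})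
      (fun D hD => ⟨hD.1, hD.2.1, hD.2.2.1, conj_of hgal B.deg
        (fun i => mul_ne_zero (hu i) (ne_of hD.2.1)) hD.2.2.2⟩)
      (Pool.Agent.D0H69.JTL.fin_norm X _)
    exact_mod_cast h9
  · intro n u hu hd P hP
    have hc : Fintype.card (Fin n) = n := Fintype.card_fin n
    rcases hP with rfl | ⟨a, ha, rfl⟩
    · have e : (proportion (fun _ => True) fun D : 𝓞 K => ∀ i, FiniteAndTrivial (u i * (D : K))) =
          fun X : ℕ =>
          ({D : 𝓞 K | Algebra.norm ℤ D ≤ X ∧ CubeFree D ∧
            ∀ e, Pool.Agent.D0H69.JTL.TrK (u e * D)}.ncard : ℝ) /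
          ({D : 𝓞 K | Algebra.norm ℤ D ≤ X ∧ CubeFree D}.ncard : ℝ) := by
        funext X
        unfold proportion
        simp only [true_and, and_true]
        rfl
      rw [e]
      have h := Pool.Agent.D0H69.JTL.lim_Tr (K := K) hu hd
      rw [hc] at h
      exact h
    · have h := Pool.Agent.D0H69.JTL.lim_Trc (K := K) hu hd a ha
      rw [hc] at h
      exact h
  · intro n x hx h
    have hd : Module.finrank K K = 3 ^ 0 := by
      rw [pow_zero, Module.finrank_self]
    refine conj_of (F := K) inferInstance hd hx fun i => ⟨(h i).1, fun k y hy => ?_⟩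
    have h7 : y = 0 := (h i).2 k y hy
    rw [h7, smul_zero]

end Pool.Agent.Results.MP_787500_nt.SplitFormsAllCubicTwists
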